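import Mathlib
import Pool.Agent.Y734.I.StmsH

/-!
# Project Y734/I, job LINE: pencils of singular symmetric matrices
-/

set_option autoImplicit false

namespace Pool.Agent.Y734.I.LINE

open Pool.Agent.Y734.I

open MvPolynomial

/-- the scalar product -/
def dt (f x : Fin 3 → ℂ) : ℂ := f 0 * x 0 + f 1 * x 1 + f 2 * x 2

/-- the cross product -/
def cp (x y : Fin 3 → ℂ) : Fin 3 → ℂ :=
  ![x 1 * y 2 - x 2 * y 1, x 2 * y 0 - x 0 * y 2, x 0 * y 1 - x 1 * y 0]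

/-- a rational vector as a complex vector -/
noncomputable def cc (h : Fin 3 → ℚ) : Fin 3 → ℂ := fun j => (h j : ℂ)

theorem ev_eq (l : Fin 3 → ℚ) (x : Fin 3 → ℂ) : ev (N := 2) l x = dt (cc l) x := by
  show ∑ j : Fin 3, algebraMap ℚ ℂ (l j) * x j = _
  rw [Fin.sum_univ_three]
  rfl

theorem exists_ne {x : Fin 3 → ℂ} (hx : x ≠ 0) : ∃ i, x i ≠ 0 := by
  by_contra hcon
  push Not at hcon
  exact hx (funext hcon)

theorem par {x y : Fin 3 → ℂ} (hx : x ≠ 0) (h : cp x y = 0) : ∃ c : ℂ, y = c • x := by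
  have h0 : x 1 * y 2 - x 2 * y 1 = 0 := congrFun h 0
  have h1 : x 2 * y 0 - x 0 * y 2 = 0 := congrFun h 1
  have h2 : x 0 * y 1 - x 1 * y 0 = 0 := congrFun h 2
  obtain ⟨i, hi⟩ := exists_ne hx
  refine ⟨y i / x i, ?_⟩
  funext j
  rw [Pi.smul_apply, smul_eq_mul, div_mul_eq_mul_div, eq_div_iff hi]
  fin_cases i <;> fin_cases j
  · ring
  · show y 1 * x 0 = y 0 * x 1
    linear_combination h2
  · show y 2 * x 0 = y 0 * x 2
    linear_combination -h1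
  · show y 0 * x 1 = y 1 * x 0
    linear_combination -h2
  · ring
  · show y 2 * x 1 = y 1 * x 2
    linear_combination h0
  · show y 0 * x 2 = y 2 * x 0
    linear_combination h1
  · show y 1 * x 2 = y 2 * x 1
    linear_combination -h0
  · ring

/-- two vectors killed by two independent forms -/
theorem two {f g x y : Fin 3 → ℂ} (hfg : cp f g ≠ 0) (hx : x ≠ 0) (h1 : dt f x = 0)
    (h2 : dt g x = 0) (h3 : dt f y = 0) (h4 : dt g y = 0) : ∃ c : ℂ, y = c • x := by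
  have key : ∀ z : Fin 3 → ℂ, dt f z = 0 → dt g z = 0 → cp (cp f g) z = 0 := by
    intro z hz1 hz2
    unfold dt at hz1 hz2
    funext j
    fin_cases j
    · show (f 2 * g 0 - f 0 * g 2) * z 2 - (f 0 * g 1 - f 1 * g 0) * z 1 = 0
      linear_combination g 0 * hz1 - f 0 * hz2
    · show (f 0 * g 1 - f 1 * g 0) * z 0 - (f 1 * g 2 - f 2 * g 1) * z 2 = 0
      linear_combination g 1 * hz1 - f 1 * hz2
    · show (f 1 * g 2 - f 2 * g 1) * z 1 - (f 2 * g 0 - f 0 * g 2) * z 0 = 0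
      linear_combination g 2 * hz1 - f 2 * hz2
  obtain ⟨s, hs⟩ := par hfg (key x h1 h2)
  obtain ⟨t, ht⟩ := par hfg (key y h3 h4)
  have hs0 : s ≠ 0 := by
    rintro rfl
    rw [zero_smul] at hs
    exact hx hs
  refine ⟨t / s, ?_⟩
  rw [ht, hs, smul_smul, div_mul_cancel₀ _ hs0]

/-- the value at `h` of a symmetric product -/
theorem qv_fac {M : Matrix (Fin 3) (Fin 3) ℚ} {p q : Fin 3 → ℂ}
    (hM : ∀ j k, ((M j k : ℚ) : ℂ) = p j * q k + q j * p k) (h : Fin 3 → ℚ) :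
    ((qv h M : ℚ) : ℂ) = 2 * (dt (cc h) p * dt (cc h) q) := by
  unfold qv dt cc
  simp only [Fin.sum_univ_three]
  push_cast
  rw [hM 0 0, hM 0 1, hM 0 2, hM 1 0, hM 1 1, hM 1 2, hM 2 0, hM 2 1, hM 2 2]
  ring

/-- kernel vectors of a symmetric product -/
theorem ker_fac {f p q : Fin 3 → ℂ} (hp : p ≠ 0) (hq : q ≠ 0)
    (h : ∀ j, (p j * q 0 + q j * p 0) * f 0 + (p j * q 1 + q j * p 1) * f 1 +
      (p j * q 2 + q j * p 2) * f 2 = 0) : dt f p = 0 ∧ dt f q = 0 := by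
  have h1 : ∀ j, p j * dt f q + q j * dt f p = 0 := by
    intro j
    unfold dt
    linear_combination h j
  have h2 : dt f p * dt f q = 0 := by
    have h3 : 2 * (dt f p * dt f q) = 0 := by
      have e : f 0 * (p 0 * dt f q + q 0 * dt f p) + f 1 * (p 1 * dt f q + q 1 * dt f p) +
          f 2 * (p 2 * dt f q + q 2 * dt f p) = 2 * (dt f p * dt f q) := by
        unfold dt
        ring
      rw [← e, h1 0, h1 1, h1 2]
      ring
    exact (mul_eq_zero.1 h3).resolve_left two_ne_zero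
  rcases mul_eq_zero.1 h2 with h3 | h3
  · refine ⟨h3, ?_⟩
    obtain ⟨i, hi⟩ := exists_ne hp
    have h4 := h1 i
    rw [h3, mul_zero, add_zero] at h4
    exact (mul_eq_zero.1 h4).resolve_left hi
  · refine ⟨?_, h3⟩
    obtain ⟨i, hi⟩ := exists_ne hq
    have h4 := h1 i
    rw [h3, mul_zero, zero_add] at h4
    exact (mul_eq_zero.1 h4).resolve_left hi

/-- a complex kernel vector gives a rational one -/
theorem rat {ι : Type} (N : ι → Fin 3 → ℚ) (f : Fin 3 → ℂ) (hf : f ≠ 0)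
    (h : ∀ i, ((N i 0 : ℚ) : ℂ) * f 0 + ((N i 1 : ℚ) : ℂ) * f 1 + ((N i 2 : ℚ) : ℂ) * f 2 = 0) :
    ∃ g : Fin 3 → ℚ, g ≠ 0 ∧ ∀ i, N i 0 * g 0 + N i 1 * g 1 + N i 2 * g 2 = 0 := by
  obtain ⟨i, hi⟩ := exists_ne hf
  obtain ⟨φ, hφ⟩ : ∃ φ : Module.Dual ℚ ℂ, φ (f i) ≠ 0 := by
    by_contra hcon
    push Not at hcon
    exact hi ((Module.forall_dual_apply_eq_zero_iff ℚ (f i)).1 hcon)
  refine ⟨fun j => φ (f j), fun h0 => hφ (congrFun h0 i), fun k => ?_⟩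
  have h1 := congrArg φ (h k)
  have h2 : ∀ (r : ℚ) (z : ℂ), φ ((r : ℂ) * z) = r * φ z := by
    intro r z
    have h3 : (r : ℂ) * z = r • z := by
      rw [Algebra.smul_def]
      rfl
    rw [h3, map_smul, smul_eq_mul]
  rw [map_add, map_add, h2, h2, h2, map_zero] at h1
  exact h1

theorem core {x y u v : Fin 3 → ℂ} (hx : x ≠ 0) (h1 : dt (cp x y) u = 0)
    (h2 : dt (cp x y) v = 0) : (∃ c : ℂ, y = c • x) ∨
      ∃ f : Fin 3 → ℂ, f ≠ 0 ∧ dt f x = 0 ∧ dt f y = 0 ∧ dt f u = 0 ∧ dt f v = 0 := by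
  by_cases h : cp x y = 0
  · exact Or.inl (par hx h)
  · refine Or.inr ⟨cp x y, h, ?_, ?_, h1, h2⟩
    · unfold dt
      show (x 1 * y 2 - x 2 * y 1) * x 0 + (x 2 * y 0 - x 0 * y 2) * x 1 +
        (x 0 * y 1 - x 1 * y 0) * x 2 = 0
      ring
    · unfold dt
      show (x 1 * y 2 - x 2 * y 1) * y 0 + (x 2 * y 0 - x 0 * y 2) * y 1 +
        (x 0 * y 1 - x 1 * y 0) * y 2 = 0
      ring

theorem dt_cyc (x y z : Fin 3 → ℂ) : dt (cp x y) z = dt (cp y z) x := by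
  unfold dt
  show (x 1 * y 2 - x 2 * y 1) * z 0 + (x 2 * y 0 - x 0 * y 2) * z 1 +
    (x 0 * y 1 - x 1 * y 0) * z 2 = (y 1 * z 2 - y 2 * z 1) * x 0 +
    (y 2 * z 0 - y 0 * z 2) * x 1 + (y 0 * z 1 - y 1 * z 0) * x 2
  ring

theorem dt_swap (x y z : Fin 3 → ℂ) : dt (cp x y) z = -dt (cp y x) z := by
  unfold dt
  show (x 1 * y 2 - x 2 * y 1) * z 0 + (x 2 * y 0 - x 0 * y 2) * z 1 +
    (x 0 * y 1 - x 1 * y 0) * z 2 = -((y 1 * x 2 - y 2 * x 1) * z 0 +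
    (y 2 * x 0 - y 0 * x 2) * z 1 + (y 0 * x 1 - y 1 * x 0) * z 2)
  ring

theorem dt_s2 (x y z : Fin 3 → ℂ) : dt (cp x y) z = -dt (cp x z) y := by
  unfold dt
  show (x 1 * y 2 - x 2 * y 1) * z 0 + (x 2 * y 0 - x 0 * y 2) * z 1 +
    (x 0 * y 1 - x 1 * y 0) * z 2 = -((x 1 * z 2 - x 2 * z 1) * y 0 +
    (x 2 * z 0 - x 0 * z 2) * y 1 + (x 0 * z 1 - x 1 * z 0) * y 2)
  ring

/-- the dichotomy for two symmetric products whose pencil is singular -/
theorem dich {p0 q0 p1 q1 : Fin 3 → ℂ} (hp : p0 ≠ 0) (hq : q0 ≠ 0)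
    (h1 : dt (cp p0 q0) p1 * dt (cp p0 q0) q1 = 0)
    (h2 : dt (cp p1 q1) p0 * dt (cp p1 q1) q0 = 0) :
    (∃ f : Fin 3 → ℂ, f ≠ 0 ∧ dt f p0 = 0 ∧ dt f q0 = 0 ∧ dt f p1 = 0 ∧ dt f q1 = 0) ∨
      (∃ c : ℂ, p1 = c • p0) ∨ (∃ c : ℂ, p1 = c • q0) ∨ (∃ c : ℂ, q1 = c • p0) ∨
        (∃ c : ℂ, q1 = c • q0) := by
  rcases mul_eq_zero.1 h1 with h1 | h1 <;> rcases mul_eq_zero.1 h2 with h2 | h2
  · have e1 : dt (cp p0 p1) q0 = 0 := by rw [dt_s2, h1, neg_zero]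
    have e2 : dt (cp p0 p1) q1 = 0 := by rw [dt_cyc, h2]
    rcases core hp e1 e2 with h | ⟨f, hf, a, b, c, d⟩
    · exact Or.inr (Or.inl h)
    · exact Or.inl ⟨f, hf, a, c, b, d⟩
  · have e1 : dt (cp q0 p1) p0 = 0 := by rw [← dt_cyc, h1]
    have e2 : dt (cp q0 p1) q1 = 0 := by rw [dt_cyc, h2]
    rcases core hq e1 e2 with h | ⟨f, hf, a, b, c, d⟩
    · exact Or.inr (Or.inr (Or.inl h))
    · exact Or.inl ⟨f, hf, c, a, b, d⟩
  · have e1 : dt (cp p0 q1) q0 = 0 := by rw [dt_s2, h1, neg_zero]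
    have e2 : dt (cp p0 q1) p1 = 0 := by rw [dt_cyc, dt_swap, h2, neg_zero]
    rcases core hp e1 e2 with h | ⟨f, hf, a, b, c, d⟩
    · exact Or.inr (Or.inr (Or.inr (Or.inl h)))
    · exact Or.inl ⟨f, hf, a, c, d, b⟩
  · have e1 : dt (cp q0 q1) p0 = 0 := by rw [← dt_cyc, h1]
    have e2 : dt (cp q0 q1) p1 = 0 := by rw [dt_cyc, dt_swap, h2, neg_zero]
    rcases core hq e1 e2 with h | ⟨f, hf, a, b, c, d⟩
    · exact Or.inr (Or.inr (Or.inr (Or.inr h)))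
    · exact Or.inl ⟨f, hf, c, a, d, b⟩

/-- the coefficients of the determinant of `A + s B` -/
theorem d3_fac {A B : Matrix (Fin 3) (Fin 3) ℚ} {p0 q0 p1 q1 : Fin 3 → ℂ}
    (hA : ∀ j k, ((A j k : ℚ) : ℂ) = p0 j * q0 k + q0 j * p0 k)
    (hB : ∀ j k, ((B j k : ℚ) : ℂ) = p1 j * q1 k + q1 j * p1 k)
    (h : D3 B A A + D3 A B A + D3 A A B = 0) : dt (cp p0 q0) p1 * dt (cp p0 q0) q1 = 0 := by
  have h1 : (((D3 B A A + D3 A B A + D3 A A B : ℚ)) : ℂ) =
      -2 * (dt (cp p0 q0) p1 * dt (cp p0 q0) q1) := by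
    unfold D3
    simp only [Matrix.det_fin_three, Matrix.of_apply, Matrix.cons_val_zero, Matrix.cons_val_one,
      Matrix.cons_val]
    push_cast
    rw [hA 0 0, hA 0 1, hA 0 2, hA 1 0, hA 1 1, hA 1 2, hA 2 0, hA 2 1, hA 2 2,
      hB 0 0, hB 0 1, hB 0 2, hB 1 0, hB 1 1, hB 1 2, hB 2 0, hB 2 1, hB 2 2]
    unfold dt
    show _ = -2 * (((p0 1 * q0 2 - p0 2 * q0 1) * p1 0 + (p0 2 * q0 0 - p0 0 * q0 2) * p1 1 +
      (p0 0 * q0 1 - p0 1 * q0 0) * p1 2) * ((p0 1 * q0 2 - p0 2 * q0 1) * q1 0 +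
      (p0 2 * q0 0 - p0 0 * q0 2) * q1 1 + (p0 0 * q0 1 - p0 1 * q0 0) * q1 2))
    ring
  rw [h, Rat.cast_zero] at h1
  exact (mul_eq_zero.1 h1.symm).resolve_left (by norm_num)

theorem four {a b : ℤ} (hab : a < b) (M : ℤ → Matrix (Fin 3) (Fin 3) ℚ)
    (h : ∀ e : ℤ, ∑ x ∈ ({a, b} : Finset ℤ), ∑ y ∈ ({a, b} : Finset ℤ),
      ∑ z ∈ ({a, b} : Finset ℤ), (if x + y + z = e then D3 (M x) (M y) (M z) else 0) = 0) :
    D3 (M a) (M a) (M a) = 0 ∧ D3 (M b) (M b) (M b) = 0 ∧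
      D3 (M b) (M a) (M a) + D3 (M a) (M b) (M a) + D3 (M a) (M a) (M b) = 0 ∧
      D3 (M a) (M b) (M b) + D3 (M b) (M a) (M b) + D3 (M b) (M b) (M a) = 0 := by
  simp only [Finset.sum_pair hab.ne] at h
  refine ⟨?_, ?_, ?_, ?_⟩
  · have h1 := h (3 * a)
    rw [if_pos (show a + a + a = 3 * a by omega), if_neg (show ¬ a + a + b = 3 * a by omega),
      if_neg (show ¬ a + b + a = 3 * a by omega), if_neg (show ¬ a + b + b = 3 * a by omega),
      if_neg (show ¬ b + a + a = 3 * a by omega), if_neg (show ¬ b + a + b = 3 * a by omega),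
      if_neg (show ¬ b + b + a = 3 * a by omega), if_neg (show ¬ b + b + b = 3 * a by omega)] at h1
    linarith
  · have h1 := h (3 * b)
    rw [if_neg (show ¬ a + a + a = 3 * b by omega), if_neg (show ¬ a + a + b = 3 * b by omega),
      if_neg (show ¬ a + b + a = 3 * b by omega), if_neg (show ¬ a + b + b = 3 * b by omega),
      if_neg (show ¬ b + a + a = 3 * b by omega), if_neg (show ¬ b + a + b = 3 * b by omega),
      if_neg (show ¬ b + b + a = 3 * b by omega), if_pos (show b + b + b = 3 * b by omega)] at h1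
    linarith
  · have h1 := h (2 * a + b)
    rw [if_neg (show ¬ a + a + a = 2 * a + b by omega), if_pos (show a + a + b = 2 * a + b by omega),
      if_pos (show a + b + a = 2 * a + b by omega), if_neg (show ¬ a + b + b = 2 * a + b by omega),
      if_pos (show b + a + a = 2 * a + b by omega), if_neg (show ¬ b + a + b = 2 * a + b by omega),
      if_neg (show ¬ b + b + a = 2 * a + b by omega),
      if_neg (show ¬ b + b + b = 2 * a + b by omega)] at h1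
    linarith
  · have h1 := h (a + 2 * b)
    rw [if_neg (show ¬ a + a + a = a + 2 * b by omega),
      if_neg (show ¬ a + a + b = a + 2 * b by omega),
      if_neg (show ¬ a + b + a = a + 2 * b by omega), if_pos (show a + b + b = a + 2 * b by omega),
      if_neg (show ¬ b + a + a = a + 2 * b by omega), if_pos (show b + a + b = a + 2 * b by omega),
      if_pos (show b + b + a = a + 2 * b by omega),
      if_neg (show ¬ b + b + b = a + 2 * b by omega)] at h1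
    linarith

/-- `FacStmt` for rational matrices -/
theorem facq (hfac : FacStmt) {A : Matrix (Fin 3) (Fin 3) ℚ} (hs : A.IsSymm) (hd : D3 A A A = 0) :
    ∃ p q : Fin 3 → ℂ, ∀ j k, ((A j k : ℚ) : ℂ) = p j * q k + q j * p k := by
  have hdet : A.det = 0 := by
    unfold D3 at hd
    rw [Matrix.det_fin_three] at hd ⊢
    exact hd
  refine hfac (A.map fun x => (x : ℂ)) ?_ ?_
  · ext j k
    show ((A k j : ℚ) : ℂ) = ((A j k : ℚ) : ℂ)
    rw [hs.apply]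
  · have h1 : ((A.det : ℚ) : ℂ) = 0 := by rw [hdet, Rat.cast_zero]
    rw [Matrix.det_fin_three] at h1 ⊢
    push_cast at h1
    exact h1

/-- at most two lines contain a point -/
theorem few {q : ℕ} {H : Fin q → Fin 3 → ℚ} (gp : GP3 H) {x : Fin 3 → ℂ} (hx : x ≠ 0)
    (T : Finset (Fin q)) (hT : ∀ i ∈ T, dt (cc (H i)) x = 0) : T.card ≤ 2 := by
  by_contra hcon
  push Not at hcon
  obtain ⟨i, hi, j, hj, k, hk, hij, hik, hjk⟩ := Finset.two_lt_card.1 hcon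
  have hli := gp i j k hij hik hjk
  have hu : IsUnit (Matrix.of ![H i, H j, H k]) :=
    Matrix.linearIndependent_rows_iff_isUnit.1 hli
  have hdet : (Matrix.of ![H i, H j, H k]).det ≠ 0 := by
    have h1 := (Matrix.isUnit_iff_isUnit_det _).1 hu
    exact h1.ne_zero
  have hdc : ((Matrix.of ![H i, H j, H k]).map fun x => (x : ℂ)).det ≠ 0 := by
    have h1 : (((Matrix.of ![H i, H j, H k]).det : ℚ) : ℂ) ≠ 0 := by
      exact_mod_cast hdet
    rw [Matrix.det_fin_three] at h1 ⊢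
    push_cast at h1
    exact h1
  apply hx
  apply Matrix.eq_zero_of_mulVec_eq_zero hdc
  funext l
  rw [Matrix.mulVec, dotProduct, Fin.sum_univ_three]
  fin_cases l
  · exact hT i hi
  · exact hT j hj
  · exact hT k hk

theorem qv_zero {h : Fin 3 → ℚ} {g : Fin 3 → ℚ} {A : Matrix (Fin 3) (Fin 3) ℚ} (hs : A.IsSymm)
    (hg : g ≠ 0) (hA : ∀ j, A j 0 * g 0 + A j 1 * g 1 + A j 2 * g 2 = 0)
    (hc : cp (cc g) (cc h) = 0) : qv h A = 0 := by
  have hg' : cc g ≠ 0 := by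
    intro h0
    apply hg
    funext j
    have h1 : ((g j : ℚ) : ℂ) = 0 := congrFun h0 j
    show g j = 0
    exact_mod_cast h1
  obtain ⟨c, hc'⟩ := par hg' hc
  have h1 : ((qv h A : ℚ) : ℂ) = 0 := by
    unfold qv
    simp only [Fin.sum_univ_three]
    push_cast
    have e : ∀ j, ((h j : ℚ) : ℂ) = c * ((g j : ℚ) : ℂ) := fun j => congrFun hc' j
    rw [e 0, e 1, e 2]
    have f : ∀ j, ((A j 0 : ℚ) : ℂ) * (g 0 : ℚ) + ((A j 1 : ℚ) : ℂ) * (g 1 : ℚ) +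
        ((A j 2 : ℚ) : ℂ) * (g 2 : ℚ) = 0 := by
      intro j
      exact_mod_cast hA j
    linear_combination c ^ 2 * ((g 0 : ℚ) : ℂ) * f 0 + c ^ 2 * ((g 1 : ℚ) : ℂ) * f 1 +
      c ^ 2 * ((g 2 : ℚ) : ℂ) * f 2
  exact_mod_cast h1

theorem ne_fac {A : Matrix (Fin 3) (Fin 3) ℚ} {h : Fin 3 → ℚ} (hA : qv h A ≠ 0) {p q : Fin 3 → ℂ}
    (hM : ∀ j k, ((A j k : ℚ) : ℂ) = p j * q k + q j * p k) : p ≠ 0 ∧ q ≠ 0 := by
  have h1 := qv_fac hM h
  constructor
  · rintro rfl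
    apply hA
    have h2 : dt (cc h) 0 = 0 := by
      unfold dt
      simp
    rw [h2, zero_mul, mul_zero] at h1
    exact_mod_cast h1
  · rintro rfl
    apply hA
    have h2 : dt (cc h) 0 = 0 := by
      unfold dt
      simp
    rw [h2, mul_zero, mul_zero] at h1
    exact_mod_cast h1

/-- the second case of the dichotomy is impossible -/
theorem case2 {q : ℕ} {H : Fin q → Fin 3 → ℚ} (hq : 6 ≤ q) (gp : GP3 H)
    {A B : Matrix (Fin 3) (Fin 3) ℚ}
    (hv : ∀ i, (qv (H i) A = 0 ∧ qv (H i) B ≠ 0) ∨ (qv (H i) B = 0 ∧ qv (H i) A ≠ 0))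
    {p u v p' : Fin 3 → ℂ} (hu : u ≠ 0) (hv' : v ≠ 0)
    (hA : ∀ j k, ((A j k : ℚ) : ℂ) = p j * u k + u j * p k)
    (hB : ∀ j k, ((B j k : ℚ) : ℂ) = p' j * v k + v j * p' k) (c : ℂ) (hc : c ≠ 0)
    (hp : p' = c • p) : False := by
  classical
  have hdt : ∀ f : Fin 3 → ℂ, dt f p' = c * dt f p := by
    intro f
    rw [hp]
    unfold dt
    simp only [Pi.smul_apply, smul_eq_mul]
    ring
  have h1 := few gp hu (Finset.univ.filter fun i => dt (cc (H i)) u = 0) (fun i hi =>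
    (Finset.mem_filter.1 hi).2)
  have h2 := few gp hv' (Finset.univ.filter fun i => dt (cc (H i)) v = 0) (fun i hi =>
    (Finset.mem_filter.1 hi).2)
  have h3 : (Finset.univ : Finset (Fin q)) ⊆
      (Finset.univ.filter fun i => dt (cc (H i)) u = 0) ∪
      (Finset.univ.filter fun i => dt (cc (H i)) v = 0) := by
    intro i _
    rw [Finset.mem_union, Finset.mem_filter, Finset.mem_filter]
    have eA := qv_fac hA (H i)
    have eB := qv_fac hB (H i)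
    rcases hv i with ⟨a0, b0⟩ | ⟨b0, a0⟩
    · left
      refine ⟨Finset.mem_univ _, ?_⟩
      by_contra hne
      rw [a0, Rat.cast_zero] at eA
      have h4 := (mul_eq_zero.1 eA.symm).resolve_left two_ne_zero
      have h5 := (mul_eq_zero.1 h4).resolve_right hne
      rw [hdt, h5, mul_zero, zero_mul, mul_zero] at eB
      exact b0 (by exact_mod_cast eB)
    · right
      refine ⟨Finset.mem_univ _, ?_⟩
      by_contra hne
      rw [b0, Rat.cast_zero] at eB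
      have h4 := (mul_eq_zero.1 eB.symm).resolve_left two_ne_zero
      have h5 := (mul_eq_zero.1 h4).resolve_right hne
      rw [hdt] at h5
      rcases mul_eq_zero.1 h5 with h6 | h6
      · exact hc h6
      · rw [h6, zero_mul, mul_zero] at eA
        exact a0 (by exact_mod_cast eA)
  have h4 := Finset.card_le_card h3
  have h5 := Finset.card_union_le (Finset.univ.filter fun i => dt (cc (H i)) u = 0)
    (Finset.univ.filter fun i => dt (cc (H i)) v = 0)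
  rw [Finset.card_univ, Fintype.card_fin] at h4
  omega

/-- the first case of the dichotomy -/
theorem case1 {q : ℕ} {H : Fin q → Fin 3 → ℚ} {A B : Matrix (Fin 3) (Fin 3) ℚ}
    (hsA : A.IsSymm) (hsB : B.IsSymm)
    (hv : ∀ i, (qv (H i) A = 0 ∧ qv (H i) B ≠ 0) ∨ (qv (H i) B = 0 ∧ qv (H i) A ≠ 0))
    {p0 q0 p1 q1 : Fin 3 → ℂ} (hp0 : p0 ≠ 0) (hq0 : q0 ≠ 0) (hp1 : p1 ≠ 0) (hq1 : q1 ≠ 0)
    (hA : ∀ j k, ((A j k : ℚ) : ℂ) = p0 j * q0 k + q0 j * p0 k)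
    (hB : ∀ j k, ((B j k : ℚ) : ℂ) = p1 j * q1 k + q1 j * p1 k)
    {g : Fin 3 → ℚ} (hg : g ≠ 0) (hgA : ∀ j, A j 0 * g 0 + A j 1 * g 1 + A j 2 * g 2 = 0)
    (hgB : ∀ j, B j 0 * g 0 + B j 1 * g 1 + B j 2 * g 2 = 0) :
    ∃ G : MvPolynomial (Fin 3) ℚ, Crv H G ∧ ∀ x : Fin 3 → ℂ, (x ≠ 0 ∧ ∃ x' : Fin 3 → ℂ, x' ≠ 0 ∧
      ∀ j k, (((A + B) j k : ℚ) : ℂ) = x j * x' k + x' j * x k) → aeval x G = 0 := by
  have hG : ∀ x : Fin 3 → ℂ, aeval x (C (g 0) * X 0 + C (g 1) * X 1 + C (g 2) * X 2 :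
      MvPolynomial (Fin 3) ℚ) = dt (cc g) x := by
    intro x
    simp only [map_add, map_mul, aeval_C, aeval_X]
    rfl
  have cast : ∀ D : Matrix (Fin 3) (Fin 3) ℚ, (∀ j, D j 0 * g 0 + D j 1 * g 1 + D j 2 * g 2 = 0) →
      ∀ x x' : Fin 3 → ℂ, x ≠ 0 → x' ≠ 0 →
      (∀ j k, ((D j k : ℚ) : ℂ) = x j * x' k + x' j * x k) → dt (cc g) x = 0 ∧ dt (cc g) x' = 0 := by
    intro D hD x x' hx hx' hxx
    refine ker_fac hx hx' fun j => ?_
    rw [← hxx j 0, ← hxx j 1, ← hxx j 2]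
    show ((D j 0 : ℚ) : ℂ) * (g 0 : ℚ) + ((D j 1 : ℚ) : ℂ) * (g 1 : ℚ) +
      ((D j 2 : ℚ) : ℂ) * (g 2 : ℚ) = 0
    exact_mod_cast hD j
  obtain ⟨e1, e2⟩ := cast A hgA p0 q0 hp0 hq0 hA
  obtain ⟨e3, e4⟩ := cast B hgB p1 q1 hp1 hq1 hB
  refine ⟨C (g 0) * X 0 + C (g 1) * X 1 + C (g 2) * X 2, ⟨⟨1, Or.inl rfl, ?_⟩, ?_, ?_⟩, ?_⟩
  · refine IsHomogeneous.add (IsHomogeneous.add ?_ ?_) ?_
    · exact (isHomogeneous_C_mul_X _ _)
    · exact (isHomogeneous_C_mul_X _ _)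
    · exact (isHomogeneous_C_mul_X _ _)
  · intro h0
    obtain ⟨i, hi⟩ : ∃ i, g i ≠ 0 := by
      by_contra hcon
      push Not at hcon
      exact hg (funext hcon)
    have h1 := hG (Pi.single i 1)
    rw [h0, map_zero] at h1
    apply hi
    have h2 : dt (cc g) (Pi.single i 1) = (g i : ℂ) := by
      unfold dt cc
      fin_cases i <;> simp
    rw [h2] at h1
    exact_mod_cast h1.symm
  · intro p hp hpG hpH
    simp only [hG] at hpG
    simp only [ev_eq] at hpH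
    obtain ⟨r, hr⟩ : ∃ r : Fin 4 → Fin 3 → ℂ, r = ![p0, q0, p1, q1] := ⟨_, rfl⟩
    have key : ∀ k, ∃ t : Fin 4, ∃ c : ℂ, c ≠ 0 ∧ p k = c • r t := by
      intro k
      obtain ⟨i, hi⟩ := hpH k
      have hcr : cp (cc g) (cc (H i)) ≠ 0 := by
        intro h0
        have a1 := qv_zero hsA hg hgA h0
        have b1 := qv_zero hsB hg hgB h0
        rcases hv i with ⟨_, h⟩ | ⟨_, h⟩
        · exact h b1
        · exact h a1
      have fin : ∀ t : Fin 4, r t ≠ 0 → dt (cc g) (r t) = 0 → dt (cc (H i)) (r t) = 0 →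
          ∃ t : Fin 4, ∃ c : ℂ, c ≠ 0 ∧ p k = c • r t := by
        intro t h1 h2 h3
        obtain ⟨c, hc⟩ := two hcr h1 h2 h3 (hpG k) hi
        refine ⟨t, c, ?_, hc⟩
        rintro rfl
        rw [zero_smul] at hc
        exact hp k hc
      rcases hv i with ⟨h, _⟩ | ⟨h, _⟩
      · have h1 := qv_fac hA (H i)
        rw [h, Rat.cast_zero] at h1
        have h2 := (mul_eq_zero.1 h1.symm).resolve_left two_ne_zero
        rcases mul_eq_zero.1 h2 with h3 | h3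
        · exact fin 0 (by rw [hr]; exact hp0) (by rw [hr]; exact e1) (by rw [hr]; exact h3)
        · exact fin 1 (by rw [hr]; exact hq0) (by rw [hr]; exact e2) (by rw [hr]; exact h3)
      · have h1 := qv_fac hB (H i)
        rw [h, Rat.cast_zero] at h1
        have h2 := (mul_eq_zero.1 h1.symm).resolve_left two_ne_zero
        rcases mul_eq_zero.1 h2 with h3 | h3
        · exact fin 2 (by rw [hr]; exact hp1) (by rw [hr]; exact e3) (by rw [hr]; exact h3)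
        · exact fin 3 (by rw [hr]; exact hq1) (by rw [hr]; exact e4) (by rw [hr]; exact h3)
    choose t c hc0 hc using key
    obtain ⟨k, l, hkl, htt⟩ := Fintype.exists_ne_map_eq_of_card_lt t (by simp)
    refine ⟨k, l, hkl, c k / c l, ?_⟩
    rw [hc l, smul_smul, div_mul_cancel₀ _ (hc0 l), ← htt]
    exact hc k
  · rintro x ⟨hx, x', hx', hxx⟩
    rw [hG]
    refine (cast (A + B) ?_ x x' hx hx' hxx).1
    intro j
    rw [Matrix.add_apply, Matrix.add_apply, Matrix.add_apply]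
    linear_combination hgA j + hgB j

theorem line (hfac : FacStmt) (hdet : DetStmt) : LineStmt := by
  intro q H κ α M fm a b hab hα ⟨ia, hia⟩ ⟨ib, hib⟩
  have hW : Finset.univ.image α = {a, b} := by
    ext w
    rw [Finset.mem_image, Finset.mem_insert, Finset.mem_singleton]
    constructor
    · rintro ⟨i, _, rfl⟩
      exact hα i
    · rintro (rfl | rfl)
      · exact ⟨ia, Finset.mem_univ _, hia⟩
      · exact ⟨ib, Finset.mem_univ _, hib⟩
  have hd := hdet (Finset.univ.image α) M fm.det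
  rw [hW] at hd
  obtain ⟨d0, d3, d1, d2⟩ := four hab M hd
  obtain ⟨p0, q0, hA⟩ := facq hfac (fm.symm a) d0
  obtain ⟨p1, q1, hB⟩ := facq hfac (fm.symm b) d3
  have hv : ∀ i, (qv (H i) (M a) = 0 ∧ qv (H i) (M b) ≠ 0) ∨
      (qv (H i) (M b) = 0 ∧ qv (H i) (M a) ≠ 0) := by
    intro i
    rcases hα i with h | h
    · right
      rw [fm.val, fm.val, h, if_neg hab.ne, if_pos rfl]
      exact ⟨rfl, fm.κ0 i⟩
    · left
      rw [fm.val, fm.val, h, if_neg hab.ne', if_pos rfl]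
      exact ⟨rfl, fm.κ0 i⟩
  have hneA : qv (H ia) (M a) ≠ 0 := by
    rw [fm.val, if_pos hia]
    exact fm.κ0 ia
  have hneB : qv (H ib) (M b) ≠ 0 := by
    rw [fm.val, if_pos hib]
    exact fm.κ0 ib
  obtain ⟨hp0, hq0⟩ := ne_fac hneA hA
  obtain ⟨hp1, hq1⟩ := ne_fac hneB hB
  have hA' : ∀ j k, ((M a j k : ℚ) : ℂ) = q0 j * p0 k + p0 j * q0 k := fun j k => by
    rw [hA]
    ring
  have hB' : ∀ j k, ((M b j k : ℚ) : ℂ) = q1 j * p1 k + p1 j * q1 k := fun j k => by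
    rw [hB]
    ring
  have hc0 : ∀ (x y : Fin 3 → ℂ) (c : ℂ), x ≠ 0 → x = c • y → c ≠ 0 := by
    intro x y c hx h
    rintro rfl
    rw [zero_smul] at h
    exact hx h
  rcases dich hp0 hq0 (d3_fac hA hB d1) (d3_fac hB hA d2) with
    ⟨f, hf, f1, f2, f3, f4⟩ | ⟨c, hc⟩ | ⟨c, hc⟩ | ⟨c, hc⟩ | ⟨c, hc⟩
  · obtain ⟨g, hg, hgN⟩ := rat (ι := Fin 3 ⊕ Fin 3) (Sum.elim (M a) (M b)) f hf (by
      rintro (j | j)
      · show ((M a j 0 : ℚ) : ℂ) * f 0 + ((M a j 1 : ℚ) : ℂ) * f 1 + ((M a j 2 : ℚ) : ℂ) * f 2 = 0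
        rw [hA, hA, hA]
        unfold dt at f1 f2
        linear_combination p0 j * f2 + q0 j * f1
      · show ((M b j 0 : ℚ) : ℂ) * f 0 + ((M b j 1 : ℚ) : ℂ) * f 1 + ((M b j 2 : ℚ) : ℂ) * f 2 = 0
        rw [hB, hB, hB]
        unfold dt at f3 f4
        linear_combination p1 j * f4 + q1 j * f3)
    obtain ⟨G, hG1, hG2⟩ := case1 (fm.symm a) (fm.symm b) hv hp0 hq0 hp1 hq1 hA hB hg
      (fun j => hgN (Sum.inl j)) (fun j => hgN (Sum.inr j))
    refine ⟨G, hG1, fun x hx => hG2 x ?_⟩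
    obtain ⟨h1, x', h2, h3⟩ := hx
    refine ⟨h1, x', h2, fun j k => ?_⟩
    have h4 := h3 j k
    rw [hW, Finset.sum_pair hab.ne] at h4
    exact h4
  · exact (case2 fm.hq fm.gp hv hq0 hq1 hA hB c (hc0 _ _ _ hp1 hc) hc).elim
  · exact (case2 fm.hq fm.gp hv hp0 hq1 hA' hB c (hc0 _ _ _ hp1 hc) hc).elim
  · exact (case2 fm.hq fm.gp hv hq0 hp1 hA hB' c (hc0 _ _ _ hq1 hc) hc).elim
  · exact (case2 fm.hq fm.gp hv hp0 hp1 hA' hB' c (hc0 _ _ _ hq1 hc) hc).elim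

end Pool.Agent.Y734.I.LINE
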